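import Mathlib

/-!
Cohomologically trivial cycles with orthogonal lifts form a subspace of finite codimension.
-/

set_option autoImplicit false

namespace Pool.Agent.H839.Lift

universe u v

/-- The data of a regular proper flat model `𝒳` over `O_E` of a variety `X` of dimension `d`, for the
codimensions `i` and `d + 1 - i`: `A` is `Ch^i(𝒳)_{ℚ,0}` and `G` is `Ch^i(X)_{ℚ,0}`, with the
restriction `res : A → G`; `B s ⊆ A` is the space of the classes of cycles of codimension `i` on `𝒳`
supported in the fibre over the closed point `s`; `A'`, `G'`, `res'`, `B'` are the same for the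
codimension `d + 1 - i`; `gs` is the Gillet–Soulé pairing, and `lg s` is the logarithm of the number
of elements of the residue field of `s`. -/
structure ModelData (P : Type u) where
  A : Type v
  G : Type v
  A' : Type v
  G' : Type v
  [grpA : AddCommGroup A]
  [modA : Module ℚ A]
  [grpG : AddCommGroup G]
  [modG : Module ℚ G]
  [grpA' : AddCommGroup A']
  [modA' : Module ℚ A']
  [grpG' : AddCommGroup G']
  [modG' : Module ℚ G']
  res : A →ₗ[ℚ] G
  res' : A' →ₗ[ℚ] G'
  B : P → Submodule ℚ A
  B' : P → Submodule ℚ A'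
  gs : A →ₗ[ℚ] A' →ₗ[ℚ] ℝ
  lg : P → ℝ

attribute [instance] ModelData.grpA ModelData.modA ModelData.grpG ModelData.modG ModelData.grpA'
  ModelData.modA' ModelData.grpG' ModelData.modG'

namespace ModelData

variable {P : Type u} (M : ModelData.{u, v} P)

/-- The same data with the two codimensions exchanged (the pairing is symmetric). -/
noncomputable def swap : ModelData.{u, v} P where
  A := M.A'
  G := M.G'
  A' := M.A
  G' := M.G
  res := M.res'
  res' := M.res
  B := M.B'
  B' := M.B
  gs := M.gs.flip
  lg := M.lg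

/-- The orthogonal space of the fibral classes: `Ch^{d+1-i}_fin(𝒳)_ℚ^⊥ ⊆ Ch^i(𝒳)_{ℚ,0}`. -/
def perp : Submodule ℚ M.A where
  carrier := {a | ∀ w, M.res' w = 0 → M.gs a w = 0}
  add_mem' := by
    intro a b ha hb w hw
    rw [map_add, LinearMap.add_apply, ha w hw, hb w hw, add_zero]
  zero_mem' := by
    intro w _
    rw [map_zero, LinearMap.zero_apply]
  smul_mem' := by
    intro c a ha w hw
    rw [map_smul, LinearMap.smul_apply, ha w hw, smul_zero]

/-- The classes in `Ch^i(X)_{ℚ,0}` which have a lift to `𝒳` that is orthogonal to all fibral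
classes. -/
def liftable : Submodule ℚ M.G := M.perp.map M.res

/-- The fibral classes over `s`, of codimension `d + 1 - i`, which are orthogonal to all fibral
classes of codimension `i` over `s`: the radical of the intersection form of the fibre. -/
def radical (s : P) : Submodule ℚ M.A' where
  carrier := {w | w ∈ M.B' s ∧ ∀ f ∈ M.B s, M.gs f w = 0}
  add_mem' := by
    intro a b ha hb
    refine ⟨Submodule.add_mem _ ha.1 hb.1, fun f hf => ?_⟩
    rw [map_add, ha.2 f hf, hb.2 f hf, add_zero]
  zero_mem' := ⟨Submodule.zero_mem _, fun f _ => map_zero _⟩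
  smul_mem' := by
    intro c a ha
    refine ⟨Submodule.smul_mem _ _ ha.1, fun f hf => ?_⟩
    rw [map_smul, ha.2 f hf, smul_zero]

/-- The known facts: every class on `X` is a restriction; the classes which vanish on `X` are the
sums of fibral classes (localization); the pairing with a fibral class over `s` is a rational number
(the degree of the intersection) times `lg s`; classes in different fibres are orthogonal; for `s`
outside the finite set `bad` the fibre over `s` is smooth, and fibral classes over `s` are orthogonal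
to `Ch^i(𝒳)_{ℚ,0}`. -/
structure IsModel (bad : Finset P) : Prop where
  surj : Function.Surjective M.res
  ker : LinearMap.ker M.res = ⨆ s, M.B s
  ker' : LinearMap.ker M.res' = ⨆ s, M.B' s
  pos : ∀ s, 0 < M.lg s
  deg : ∀ s (a : M.A), ∀ w ∈ M.B' s, ∃ q : ℚ, M.gs a w = (q : ℝ) * M.lg s
  disjoint : ∀ s t, s ≠ t → ∀ f ∈ M.B s, ∀ w ∈ M.B' t, M.gs f w = 0
  good : ∀ s, s ∉ bad → ∀ (a : M.A), ∀ w ∈ M.B' s, M.gs a w = 0

/-- `T s` consists of fibral classes over `s` of codimension `d + 1 - i` that are orthogonal to
`Ch^i(𝒳)_{ℚ,0}`, and the quotient is finite dimensional. (In the intended use `T s` are the classes of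
the push-forwards of the numerically trivial cycles on alterations of the components of the
fibre.) -/
structure NumTrivial (bad : Finset P) (T : P → Submodule ℚ M.A') : Prop where
  le : ∀ s ∈ bad, T s ≤ M.B' s
  orth : ∀ s ∈ bad, ∀ (a : M.A), ∀ w ∈ T s, M.gs a w = 0
  finite : ∀ s ∈ bad, Module.Finite ℚ (M.B' s ⧸ (T s).submoduleOf (M.B' s))

variable {M} {bad : Finset P} {T : P → Submodule ℚ M.A'}

/-- the degree of the intersection, as a linear map -/
noncomputable def degMap (h : M.IsModel bad) (s : P) : M.A →ₗ[ℚ] Module.Dual ℚ (M.B' s) where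
  toFun a :=
    { toFun := fun w => (h.deg s a w w.2).choose
      map_add' := fun w w' => by
        have h1 := (h.deg s a w w.2).choose_spec
        have h2 := (h.deg s a w' w'.2).choose_spec
        have h3 := (h.deg s a (w + w' : M.B' s) (w + w').2).choose_spec
        have h4 : M.gs a ((w + w' : M.B' s) : M.A') = M.gs a w + M.gs a w' := by
          rw [Submodule.coe_add, map_add]
        rw [h1, h2, h3, ← add_mul] at h4
        exact_mod_cast mul_right_cancel₀ (h.pos s).ne' h4
      map_smul' := fun c w => by
        have h1 := (h.deg s a w w.2).choose_spec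
        have h3 := (h.deg s a (c • w : M.B' s) (c • w).2).choose_spec
        have h4 : M.gs a ((c • w : M.B' s) : M.A') = c • M.gs a w := by
          rw [Submodule.coe_smul, map_smul]
        rw [h1, h3, Rat.smul_def, ← mul_assoc] at h4
        have h5 := mul_right_cancel₀ (h.pos s).ne' h4
        rw [RingHom.id_apply, smul_eq_mul]
        exact_mod_cast h5 }
  map_add' a b := by
    ext w
    have h1 := (h.deg s a w w.2).choose_spec
    have h2 := (h.deg s b w w.2).choose_spec
    have h3 := (h.deg s (a + b) w w.2).choose_spec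
    have h4 : M.gs (a + b) w = M.gs a w + M.gs b w := by rw [map_add, LinearMap.add_apply]
    rw [h1, h2, h3, ← add_mul] at h4
    change (h.deg s (a + b) w w.2).choose = (h.deg s a w w.2).choose + (h.deg s b w w.2).choose
    exact_mod_cast mul_right_cancel₀ (h.pos s).ne' h4
  map_smul' c a := by
    ext w
    have h1 := (h.deg s a w w.2).choose_spec
    have h3 := (h.deg s (c • a) w w.2).choose_spec
    have h4 : M.gs (c • a) w = c • M.gs a w := by rw [map_smul, LinearMap.smul_apply]
    rw [h1, h3, Rat.smul_def, ← mul_assoc] at h4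
    have h5 := mul_right_cancel₀ (h.pos s).ne' h4
    change (h.deg s (c • a) w w.2).choose = c * (h.deg s a w w.2).choose
    exact_mod_cast h5

lemma gs_degMap (h : M.IsModel bad) (s : P) (a : M.A) (w : M.B' s) :
    M.gs a w = (degMap h s a w : ℝ) * M.lg s :=
  (h.deg s a w w.2).choose_spec

lemma gs_eq_zero_iff (h : M.IsModel bad) (s : P) (a : M.A) (w : M.B' s) :
    M.gs a w = 0 ↔ degMap h s a w = 0 := by
  rw [gs_degMap h, mul_eq_zero, or_iff_left (h.pos s).ne', Rat.cast_eq_zero]

lemma mem_perp_iff (h : M.IsModel bad) (a : M.A) :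
    a ∈ M.perp ↔ ∀ s, ∀ w ∈ M.B' s, M.gs a w = 0 := by
  constructor
  · intro ha s w hw
    apply ha
    have : w ∈ LinearMap.ker M.res' := by
      rw [h.ker']
      exact Submodule.mem_iSup_of_mem s hw
    exact this
  · intro ha w hw
    have h1 : w ∈ ⨆ s, M.B' s := by
      rw [← h.ker']
      exact hw
    have h2 : (⨆ s, M.B' s) ≤ LinearMap.ker (M.gs a) := iSup_le (fun s w hw => ha s w hw)
    exact h2 h1

lemma ker_le_radical (h : M.IsModel bad) {f : M.A} (hf : M.res f = 0) (s : P) {w : M.A'}
    (hw : w ∈ M.radical s) : M.gs f w = 0 := by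
  have h1 : f ∈ ⨆ s, M.B s := by
    rw [← h.ker]
    exact hf
  have h2 : (⨆ s, M.B s) ≤ LinearMap.ker (M.gs.flip w) := by
    refine iSup_le (fun t g hg => ?_)
    rw [LinearMap.mem_ker, LinearMap.flip_apply]
    by_cases hst : t = s
    · subst hst
      exact hw.2 g hg
    · exact h.disjoint t s hst g hg w hw.1
  exact h2 h1

/-- A class has an orthogonal lift if and only if any lift is orthogonal to the radicals. -/
lemma res_mem_liftable_iff (h : M.IsModel bad) (hT : M.NumTrivial bad T) (a : M.A) :
    M.res a ∈ M.liftable ↔ ∀ s ∈ bad, ∀ w ∈ M.radical s, M.gs a w = 0 := by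
  constructor
  · rintro ⟨b, hb, hba⟩ s _ w hw
    have h1 : M.res (a - b) = 0 := by rw [map_sub, hba, sub_self]
    have h2 := ker_le_radical h h1 s hw
    have h3 := (mem_perp_iff h b).1 hb s w hw.1
    rw [map_sub, LinearMap.sub_apply, h3, sub_zero] at h2
    exact h2
  · intro ha
    classical
    have key : ∀ s ∈ bad, ∃ f ∈ M.B s, ∀ w ∈ M.B' s, M.gs a w = M.gs f w := by
      intro s hs
      have hfin := hT.finite s hs
      let N := M.B' s ⧸ (T s).submoduleOf (M.B' s)
      have hv : ∀ b : M.A, (T s).submoduleOf (M.B' s) ≤ LinearMap.ker (degMap h s b) := by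
        intro b w hw
        rw [LinearMap.mem_ker, ← gs_eq_zero_iff h]
        exact hT.orth s hs b w hw
      let δ : M.A →ₗ[ℚ] Module.Dual ℚ N :=
        { toFun := fun b => ((T s).submoduleOf (M.B' s)).liftQ (degMap h s b) (hv b)
          map_add' := fun b c => by
            apply Submodule.linearMap_qext
            ext w
            simp
          map_smul' := fun b c => by
            apply Submodule.linearMap_qext
            ext w
            simp }
      have hδ : ∀ (b : M.A) (w : M.B' s), δ b (Submodule.Quotient.mk w) = degMap h s b w := by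
        intro b w
        rfl
      let W : Submodule ℚ (Module.Dual ℚ N) := (M.B s).map δ
      have hmem : δ a ∈ W := by
        have hW : W.dualCoannihilator.dualAnnihilator = W :=
          Subspace.dualCoannihilator_dualAnnihilator_eq
        rw [← hW, Submodule.mem_dualAnnihilator]
        intro n hn
        obtain ⟨w, rfl⟩ := Submodule.Quotient.mk_surjective _ n
        rw [hδ, ← gs_eq_zero_iff h]
        apply ha s hs
        refine ⟨w.2, fun f hf => ?_⟩
        rw [Submodule.mem_dualCoannihilator] at hn
        rw [gs_eq_zero_iff h, ← hδ]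
        exact hn _ ⟨f, hf, rfl⟩
      obtain ⟨f, hf, hfa⟩ := hmem
      refine ⟨f, hf, fun w hw => ?_⟩
      have h1 := gs_degMap h s a ⟨w, hw⟩
      have h2 := gs_degMap h s f ⟨w, hw⟩
      have h3 : degMap h s a ⟨w, hw⟩ = degMap h s f ⟨w, hw⟩ := by
        rw [← hδ, ← hδ, hfa]
      rw [h3] at h1
      exact h1.trans h2.symm
    choose! f hf hfa using key
    refine ⟨a - ∑ s ∈ bad, f s, ?_, ?_⟩
    · rw [SetLike.mem_coe, mem_perp_iff h]
      intro t w hw
      by_cases ht : t ∈ bad
      · rw [map_sub, map_sum, LinearMap.sub_apply, LinearMap.sum_apply,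
          Finset.sum_eq_single_of_mem t ht (fun s hs hst => h.disjoint s t hst _ (hf s hs) w hw),
          hfa t ht w hw, sub_self]
      · exact h.good t ht _ w hw
    · rw [map_sub, map_sum, sub_eq_self]
      refine Finset.sum_eq_zero (fun s hs => ?_)
      have : f s ∈ LinearMap.ker M.res := by
        rw [h.ker]
        exact Submodule.mem_iSup_of_mem s (hf s hs)
      exact this

/-- the radical modulo the numerically trivial classes -/
abbrev radQuot (M : ModelData.{u, v} P) (T : P → Submodule ℚ M.A') (s : P) : Type v :=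
  M.radical s ⧸ (T s).submoduleOf (M.radical s)

lemma finite_radQuot (hT : M.NumTrivial bad T) {s : P} (hs : s ∈ bad) :
    Module.Finite ℚ (M.radQuot T s) := by
  have hfin := hT.finite s hs
  let ι : M.radical s →ₗ[ℚ] M.B' s := Submodule.inclusion (fun w hw => hw.1)
  let j : M.radQuot T s →ₗ[ℚ] (M.B' s ⧸ (T s).submoduleOf (M.B' s)) :=
    Submodule.mapQ _ _ ι (fun w hw => hw)
  have hj : Function.Injective j := by
    rw [← LinearMap.ker_eq_bot, LinearMap.ker_eq_bot']
    intro x hx
    obtain ⟨w, rfl⟩ := Submodule.Quotient.mk_surjective _ x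
    have hx' : (Submodule.Quotient.mk (ι w) : M.B' s ⧸ (T s).submoduleOf (M.B' s)) = 0 := hx
    rw [Submodule.Quotient.mk_eq_zero] at hx'
    rw [Submodule.Quotient.mk_eq_zero]
    exact hx'
  exact Module.Finite.of_injective j hj

/-- The liftable classes have finite codimension, bounded by the sum of the dimensions of the
radicals of the fibres over the bad places modulo numerically trivial classes. -/
def CodimBounded (M : ModelData.{u, v} P) (bad : Finset P) (T : P → Submodule ℚ M.A') : Prop :=
  Module.Finite ℚ (M.G ⧸ M.liftable) ∧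
    Module.finrank ℚ (M.G ⧸ M.liftable) ≤ ∑ s ∈ bad, Module.finrank ℚ (M.radQuot T s)

/-- The Gillet–Soulé pairing of orthogonal lifts of classes of complementary codimensions only
depends on the classes on the generic fibre, and so defines a bilinear pairing of the liftable
classes. -/
def HasHeightPairing (M : ModelData.{u, v} P) : Prop :=
  ∀ (a a₂ : M.perp) (b b₂ : M.swap.perp), M.res a.1 = M.res a₂.1 → M.res' b.1 = M.res' b₂.1 →
    M.gs a.1 b.1 = M.gs a₂.1 b₂.1

/-- The liftable classes have finite codimension. -/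
theorem finite_codim (h : M.IsModel bad) (hT : M.NumTrivial bad T) : M.CodimBounded bad T := by
  classical
  have hfin : ∀ s : bad, Module.Finite ℚ (M.radQuot T s) := fun s => finite_radQuot hT s.2
  have hle : ∀ s : bad, M.radical s.1 ≤ M.B' s.1 := fun s w hw => hw.1
  have hv : ∀ (s : bad) (b : M.A), (T s.1).submoduleOf (M.radical s.1) ≤
      LinearMap.ker (degMap h s.1 b ∘ₗ Submodule.inclusion (hle s)) := by
    intro s b w hw
    rw [LinearMap.mem_ker, LinearMap.comp_apply, ← gs_eq_zero_iff h]
    exact hT.orth s.1 s.2 b w hw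
  let δ : ∀ s : bad, M.A →ₗ[ℚ] Module.Dual ℚ (M.radQuot T s) := fun s =>
    { toFun := fun b => ((T s.1).submoduleOf (M.radical s.1)).liftQ
        (degMap h s.1 b ∘ₗ Submodule.inclusion (hle s)) (hv s b)
      map_add' := fun b c => by
        apply Submodule.linearMap_qext
        ext w
        simp
      map_smul' := fun b c => by
        apply Submodule.linearMap_qext
        ext w
        simp }
  let Ψ : M.A →ₗ[ℚ] (∀ s : bad, Module.Dual ℚ (M.radQuot T s)) := LinearMap.pi δ
  let π : M.A →ₗ[ℚ] (M.G ⧸ M.liftable) := M.liftable.mkQ ∘ₗ M.res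
  have hπ : Function.Surjective π := (Submodule.mkQ_surjective _).comp h.surj
  have hker : LinearMap.ker π = LinearMap.ker Ψ := by
    ext a
    have h1 : a ∈ LinearMap.ker π ↔ M.res a ∈ M.liftable := by
      rw [LinearMap.mem_ker, LinearMap.comp_apply, Submodule.mkQ_apply,
        Submodule.Quotient.mk_eq_zero]
    rw [h1, res_mem_liftable_iff h hT, LinearMap.mem_ker]
    constructor
    · intro h2
      funext s
      apply Submodule.linearMap_qext
      ext w
      change degMap h s.1 a ⟨w, _⟩ = 0
      rw [← gs_eq_zero_iff h]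
      exact h2 s.1 s.2 w w.2
    · intro h2 s hs w hw
      have h3 := congrFun h2 ⟨s, hs⟩
      have h4 := congrArg (fun t => t (Submodule.Quotient.mk ⟨w, hw⟩)) h3
      have h5 : degMap h s a ⟨w, hw.1⟩ = 0 := h4
      exact (gs_eq_zero_iff h s a ⟨w, hw.1⟩).2 h5
  let e : (M.G ⧸ M.liftable) ≃ₗ[ℚ] LinearMap.range Ψ :=
    (π.quotKerEquivOfSurjective hπ).symm ≪≫ₗ (Submodule.quotEquivOfEq _ _ hker) ≪≫ₗ
      Ψ.quotKerEquivRange
  have hf : Module.Finite ℚ (LinearMap.range Ψ) := inferInstance
  refine ⟨Module.Finite.equiv e.symm, ?_⟩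
  rw [e.finrank_eq]
  refine (Submodule.finrank_le _).trans ?_
  rw [Module.finrank_pi_fintype]
  have h1 : ∀ s : bad, Module.finrank ℚ (Module.Dual ℚ (M.radQuot T s)) =
      Module.finrank ℚ (M.radQuot T s) := fun s => Subspace.dual_finrank_eq
  rw [Finset.sum_congr rfl (fun s _ => h1 s)]
  exact le_of_eq (Finset.sum_coe_sort bad (fun s => Module.finrank ℚ (M.radQuot T s)))

/-- The Gillet–Soulé pairing of orthogonal lifts defines a pairing of the liftable classes. -/
theorem exists_height (M : ModelData.{u, v} P) : M.HasHeightPairing := by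
  intro a a₂ b b₂ ha hb
  let x : M.A := a.1
  let x₂ : M.A := a₂.1
  let y : M.A' := b.1
  let y₂ : M.A' := b₂.1
  have h1 : M.res (x - x₂) = 0 := by rw [map_sub, sub_eq_zero]; exact ha
  have h2 : M.res' (y - y₂) = 0 := by rw [map_sub, sub_eq_zero]; exact hb
  have h3 : M.gs (x - x₂) y = 0 := b.2 _ h1
  have h4 : M.gs x₂ (y - y₂) = 0 := a₂.2 _ h2
  rw [map_sub, sub_eq_zero] at h4
  rw [map_sub, LinearMap.sub_apply, sub_eq_zero] at h3
  change M.gs x y = M.gs x₂ y₂
  rw [h3, h4]

end ModelData

end Pool.Agent.H839.Lift
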